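import Pool.Agent.H78.GX.H78.GS.TA3

/-!
# Theorem (G), section 3a, row AGDP: the distance functions along the edges of the prime numbers
-/

set_option autoImplicit false

open Finset Pool.Agent.H6.N4D Pool.Agent.H78.GX.H6.N4D Pool.Agent.H78.GX Pool.Agent.H78.GX.H78.GS

namespace Pool.Agent.H78.GX.H85.GS3

lemma gdp_exp {r h : ℝ} (h0 : 0 ≤ h) (h1 : h ≤ 1) (hr : |r| ≤ h / 2) : Real.exp r ≤ 1 + h := by
  have a := Real.add_one_le_exp (-r)
  have b : Real.exp r * Real.exp (-r) = 1 := by rw [← Real.exp_add]; simp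
  have c := Real.exp_pos r
  rw [abs_le] at hr
  have d : Real.exp r * (1 - h / 2) ≤ 1 := by
    rw [← b]
    exact mul_le_mul_of_nonneg_left (by linarith) c.le
  have f : 1 ≤ (1 + h) * (1 - h / 2) := by nlinarith
  have g : 0 < 1 - h / 2 := by linarith
  by_contra hc
  push Not at hc
  nlinarith

lemma gdp_exp2 {r h : ℝ} (h0 : 0 ≤ h) (h1 : h ≤ 1) (hr : |r| ≤ h / 2) :
    |Real.exp r - 1| ≤ h := by
  have h2 := gdp_exp h0 h1 hr
  have h3 := Real.add_one_le_exp r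
  rw [abs_le] at hr ⊢
  constructor <;> linarith

/-- the pure inequality -/
lemma gdp_pure {Z Z' E η h δ δ' : ℝ} {p : ℕ} {r : ℝ} (hp : 1 ≤ p) (hZ : 0 < Z)
    (h0 : 0 ≤ h) (h1 : h ≤ 1) (hr : |r| ≤ h / 2) (hZZ : Z' * p = Z * Real.exp r)
    (hE : nd (δ' - p * δ) ≤ E) (hη : Z' * E ≤ η) :
    Z' * nd δ' ≤ (1 + h) * (Z * nd δ) + η ∧
    Z * nd (p * δ) ≤ p * ((1 + h) * (Z' * nd δ' + η)) := by
  have hp0 : (0 : ℝ) < p := by exact_mod_cast hp
  have hZ' : 0 < Z' := by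
    have h2 : 0 < Z' * p := by rw [hZZ]; exact mul_pos hZ (Real.exp_pos r)
    exact pos_of_mul_pos_left h2 hp0.le
  have e1 := gdp_exp h0 h1 hr
  have e2 : Real.exp (-r) ≤ 1 + h := gdp_exp h0 h1 (by rwa [abs_neg])
  have e3 : Real.exp r * Real.exp (-r) = 1 := by rw [← Real.exp_add]; simp
  have hη2 : Z' * nd (δ' - p * δ) ≤ η :=
    (mul_le_mul_of_nonneg_left hE hZ'.le).trans hη
  have hη0 : 0 ≤ η := (mul_nonneg hZ'.le (nd_nonneg _)).trans hη2
  constructor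
  · have a1 : nd δ' ≤ p * nd δ + nd (δ' - p * δ) := by
      have b1 := nd_add_le (p * δ) (δ' - p * δ)
      have b2 : (p : ℝ) * δ + (δ' - p * δ) = δ' := by ring
      rw [b2] at b1
      have := nd_nat_mul_le p δ
      linarith
    calc Z' * nd δ' ≤ Z' * (p * nd δ + nd (δ' - p * δ)) := mul_le_mul_of_nonneg_left a1 hZ'.le
      _ = Z' * p * nd δ + Z' * nd (δ' - p * δ) := by ring
      _ = Real.exp r * (Z * nd δ) + Z' * nd (δ' - p * δ) := by rw [hZZ]; ring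
      _ ≤ (1 + h) * (Z * nd δ) + η := by
          refine add_le_add (mul_le_mul_of_nonneg_right e1 ?_) hη2
          exact mul_nonneg hZ.le (nd_nonneg _)
  · have a1 : nd (p * δ) ≤ nd δ' + nd (δ' - p * δ) := by
      have b1 := nd_sub_le δ' (δ' - p * δ)
      have b2 : δ' - (δ' - p * δ) = (p : ℝ) * δ := by ring
      rw [b2] at b1
      exact b1
    have a2 : Z = p * (Real.exp (-r) * Z') := by
      calc Z = Z * Real.exp r * Real.exp (-r) := by rw [mul_assoc, e3, mul_one]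
        _ = Z' * p * Real.exp (-r) := by rw [hZZ]
        _ = p * (Real.exp (-r) * Z') := by ring
    have a3 : Z' * nd (p * δ) ≤ Z' * nd δ' + η := by
      calc Z' * nd (p * δ) ≤ Z' * (nd δ' + nd (δ' - p * δ)) :=
            mul_le_mul_of_nonneg_left a1 hZ'.le
        _ = Z' * nd δ' + Z' * nd (δ' - p * δ) := by ring
        _ ≤ Z' * nd δ' + η := by linarith
    have a4 : 0 ≤ Z' * nd δ' + η := add_nonneg (mul_nonneg hZ'.le (nd_nonneg _)) hη0
    calc Z * nd (p * δ) = p * (Real.exp (-r) * (Z' * nd (p * δ))) := by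
          conv_lhs => rw [a2]
          ring
      _ ≤ p * ((1 + h) * (Z' * nd δ' + η)) := by
          refine mul_le_mul_of_nonneg_left ?_ hp0.le
          exact mul_le_mul e2 a3 (mul_nonneg hZ'.le (nd_nonneg _)) (by linarith)

/-- the comparison of two related pairs of sheets -/
lemma gdp_core {S : Par} {e₀ e₁ c : ℝ} {θ φ : ℤ → ℕ → ℝ} {p D j i k k' : ℕ} {t : ℤ}
    (hh : 0 < S.h) (hh1 : S.h ≤ 1) (hrho : 0 < S.rho) (hp : 1 ≤ p) (h1 : 0 < e₁) (h0 : 0 ≤ e₀)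
    (hl : |S.h * S.l p - Real.log p| ≤ S.h / 2) (hc : |c| ≤ 1 / S.rho ^ 2)
    (ha : RE S e₀ θ φ p t j i) (hb : RE S e₀ θ φ p (t + D) k k') :
    ds S e₁ θ D c (t - S.l p) i k' ≤ (1 + S.h) * ds S e₁ θ D c t j k +
      (2 * (1 + S.h) * (e₀ / e₁) + S.h / (S.rho * e₁)) ∧
    S.rho * S.x t / e₁ * nd (p * (θ (t + D) k - θ t j - c / S.x t)) ≤
      p * ((1 + S.h) * (ds S e₁ θ D c (t - S.l p) i k' +
        (2 * (1 + S.h) * (e₀ / e₁) + S.h / (S.rho * e₁)))) := by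
  have hx : 0 < S.x t := Par.x_pos t
  have hp0 : (0 : ℝ) < p := by exact_mod_cast hp
  have hxD : S.x t ≤ S.x (t + D) := Par.x_mono hh (by omega)
  have ha1 := ha.1
  have hb1 : nd (θ (t - S.l p + D) k' - p * θ (t + D) k) ≤ p * e₀ / (S.rho * S.x t) := by
    have b1 := hb.1
    have e : t + (D : ℤ) - S.l p = t - S.l p + D := by ring
    rw [e] at b1
    refine b1.trans ?_
    apply div_le_div_of_nonneg_left (by positivity) (by positivity)
    exact mul_le_mul_of_nonneg_left hxD hrho.le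
  obtain ⟨r, hrr⟩ : ∃ r, r = Real.log p - S.h * S.l p := ⟨_, rfl⟩
  have hr1 : |r| ≤ S.h / 2 := by
    rw [hrr, abs_sub_comm]; exact hl
  have hx' : S.x (t - S.l p) = S.x t / p * Real.exp r := by
    rw [Par.x_sub, show -(S.h * (S.l p : ℝ)) = r - Real.log p by rw [hrr]; ring,
      Real.exp_sub, Real.exp_log hp0]
    ring
  have hE := Real.exp_pos r
  have hE1 : Real.exp r ≤ 1 + S.h := gdp_exp hh.le hh1 hr1
  have hE2 : |Real.exp r - 1| ≤ S.h := gdp_exp2 hh.le hh1 hr1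
  have hx'0 : 0 < S.x (t - S.l p) := Par.x_pos _
  refine gdp_pure (δ := θ (t + D) k - θ t j - c / S.x t)
    (E := 2 * (p * e₀ / (S.rho * S.x t)) + |c| * |1 / S.x (t - S.l p) - p / S.x t|)
    (r := r) hp (by positivity) hh.le hh1 hr1 ?_ ?_ ?_
  · rw [hx']
    field_simp
  · have e1 : θ (t - S.l p + D) k' - θ (t - S.l p) i - c / S.x (t - S.l p) -
        p * (θ (t + D) k - θ t j - c / S.x t) =
        ((θ (t - S.l p + D) k' - p * θ (t + D) k) - (θ (t - S.l p) i - p * θ t j)) -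
          c * (1 / S.x (t - S.l p) - p / S.x t) := by ring
    rw [e1]
    have a1 := nd_sub_le ((θ (t - S.l p + D) k' - p * θ (t + D) k) -
      (θ (t - S.l p) i - p * θ t j)) (c * (1 / S.x (t - S.l p) - p / S.x t))
    have a2 := nd_sub_le (θ (t - S.l p + D) k' - p * θ (t + D) k) (θ (t - S.l p) i - p * θ t j)
    have a3 := nd_le_abs (c * (1 / S.x (t - S.l p) - p / S.x t))
    rw [abs_mul] at a3
    linarith
  · have e1 : S.rho * S.x (t - S.l p) / e₁ * (2 * (p * e₀ / (S.rho * S.x t)) +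
        |c| * |1 / S.x (t - S.l p) - p / S.x t|) =
        2 * Real.exp r * (e₀ / e₁) + S.rho / e₁ * |c| *
          |S.x (t - S.l p) * (1 / S.x (t - S.l p) - p / S.x t)| := by
      rw [abs_mul, abs_of_pos hx'0, mul_add]
      congr 1
      · rw [hx']; field_simp
      · ring
    have e2 : S.x (t - S.l p) * (1 / S.x (t - S.l p) - p / S.x t) = 1 - Real.exp r := by
      rw [mul_sub, mul_one_div_cancel hx'0.ne']
      congr 1
      rw [hx']
      field_simp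
    rw [e1, e2, abs_sub_comm]
    have b1 : 2 * Real.exp r * (e₀ / e₁) ≤ 2 * (1 + S.h) * (e₀ / e₁) := by
      refine mul_le_mul_of_nonneg_right (by linarith) (by positivity)
    have b2 : S.rho / e₁ * |c| * |Real.exp r - 1| ≤ S.rho / e₁ * (1 / S.rho ^ 2) * S.h := by
      refine mul_le_mul ?_ hE2 (abs_nonneg _) (by positivity)
      exact mul_le_mul_of_nonneg_left hc (by positivity)
    have b3 : S.rho / e₁ * (1 / S.rho ^ 2) * S.h = S.h / (S.rho * e₁) := by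
      field_simp
    linarith

lemma gdp_nd_mul {δ ζ : ℝ} {p : ℕ} (hp : 1 ≤ p) (h1 : nd δ ≤ ζ) (h2 : p * ζ ≤ 1 / 2) :
    nd (p * δ) = p * nd δ := by
  have hp0 : (0 : ℝ) < p := by exact_mod_cast hp
  obtain ⟨m, hm⟩ := exists_int δ
  have e1 : (p : ℝ) * δ = p * (δ - m) + ((p * m : ℤ) : ℝ) := by push_cast; ring
  have e2 : |(p : ℝ) * (δ - m)| = p * nd δ := by
    rw [abs_mul, abs_of_pos hp0, hm]
  rw [e1, nd_add_int, nd_eq_abs, e2]
  rw [e2]
  exact (mul_le_mul_of_nonneg_left h1 hp0.le).trans h2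

lemma gdp_le_one {S : Par} {e₁ : ℝ} {θ : ℤ → ℕ → ℝ} {F : ℤ → Finset ℕ} {D : ℕ} {c : ℝ}
    {t : ℤ} {j : ℕ} : Gd S e₁ θ F D c t j ≤ 1 := by
  unfold Gd
  exact (Finset.fold_min_le _).2 (Or.inl le_rfl)

lemma gdp_nonneg {S : Par} {e₁ : ℝ} {θ : ℤ → ℕ → ℝ} {F : ℤ → Finset ℕ} {D : ℕ} {c : ℝ}
    {t : ℤ} {j : ℕ} (hr : 0 < S.rho) (h1 : 0 < e₁) : 0 ≤ Gd S e₁ θ F D c t j := by
  unfold Gd
  refine (Finset.le_fold_min _).2 ⟨zero_le_one, fun i _ => ?_⟩
  unfold ds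
  have := Par.x_pos (S := S) t
  exact mul_nonneg (by positivity) (nd_nonneg _)

/-- one edge -/
lemma gdp_edge {S : Par} {e₀ e₁ e c : ℝ} {θ φ : ℤ → ℕ → ℝ} {F : ℤ → Finset ℕ}
    {p D j i : ℕ} {t : ℤ} (hh : 0 < S.h) (hh1 : S.h ≤ e / 8) (he1 : e ≤ 1) (_he : 0 < e)
    (hrho : 0 < S.rho) (hp : 1 ≤ p) (h1 : 0 < e₁) (h0 : 0 ≤ e₀) (h0' : e₀ ≤ e * e₁ / 100)
    (hr1 : S.h / (S.rho * e₁) ≤ e / 8)
    (hl : |S.h * S.l p - Real.log p| ≤ S.h / 2) (hc : |c| ≤ 1 / S.rho ^ 2)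
    (ha : RE S e₀ θ φ p t j i)
    (hM : Mat (RE S e₀ θ φ p (t + D)) (F (t + D)) (F (t + D - S.l p)))
    (hpz : p * (2 * e₁ / (S.rho * S.x t)) ≤ 1 / 2)
    (hex : ∀ k ∈ F (t + D), nd (p * (θ (t + D) k - θ t j - c / S.x t)) ≤
      p * (2 * e₁ / (S.rho * S.x t)) →
      nd (θ (t + D) k - θ t j - c / S.x t) ≤ 2 * e₁ / (S.rho * S.x t)) :
    |Gd S e₁ θ F D c (t - S.l p) i - Gd S e₁ θ F D c t j| ≤ e := by
  have hx : 0 < S.x t := Par.x_pos t
  have hp0 : (0 : ℝ) < p := by exact_mod_cast hp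
  have hh2 : S.h ≤ 1 := by linarith
  have ee1 : t + (D : ℤ) - S.l p = t - S.l p + D := by ring
  obtain ⟨η, hη⟩ : ∃ η, η = 2 * (1 + S.h) * (e₀ / e₁) + S.h / (S.rho * e₁) := ⟨_, rfl⟩
  have hq1 : e₀ / e₁ ≤ e / 100 := by
    rw [div_le_iff₀ h1]; linarith
  have hq0 : 0 ≤ e₀ / e₁ := by positivity
  have hη1 : η ≤ e / 6 := by
    rw [hη]
    nlinarith
  have hη0 : 0 ≤ η := by
    rw [hη]; positivity
  have hG0 := gdp_nonneg (F := F) (D := D) (c := c) (t := t) (j := j) (θ := θ) hrho h1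
  have hG1 := gdp_le_one (S := S) (e₁ := e₁) (F := F) (D := D) (c := c) (t := t) (j := j) (θ := θ)
  have hG0' := gdp_nonneg (F := F) (D := D) (c := c) (t := t - S.l p) (j := i) (θ := θ) hrho h1
  have hG1' := gdp_le_one (S := S) (e₁ := e₁) (F := F) (D := D) (c := c) (t := t - S.l p)
    (j := i) (θ := θ)
  have hup : Gd S e₁ θ F D c (t - S.l p) i ≤ Gd S e₁ θ F D c t j + e := by
    have h2 : Gd S e₁ θ F D c t j ≤ Gd S e₁ θ F D c t j := le_rfl
    conv at h2 => lhs; unfold Gd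
    rcases (Finset.fold_min_le _).1 h2 with h3 | ⟨k, hk, h3⟩
    · linarith
    · obtain ⟨k', hk', hR⟩ := hM.1 k hk
      have h4 := (gdp_core hh hh2 hrho hp h1 h0 hl hc ha hR).1
      rw [← hη] at h4
      rw [ee1] at hk'
      have h5 : Gd S e₁ θ F D c (t - S.l p) i ≤ ds S e₁ θ D c (t - S.l p) i k' := by
        conv_lhs => unfold Gd
        exact (Finset.fold_min_le _).2 (Or.inr ⟨k', hk', le_rfl⟩)
      have h6 : (1 + S.h) * ds S e₁ θ D c t j k ≤ (1 + S.h) * Gd S e₁ θ F D c t j :=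
        mul_le_mul_of_nonneg_left h3 (by linarith)
      have h7 : S.h * Gd S e₁ θ F D c t j ≤ S.h * 1 := mul_le_mul_of_nonneg_left hG1 hh.le
      linarith
  have hdn : Gd S e₁ θ F D c t j ≤ Gd S e₁ θ F D c (t - S.l p) i + e := by
    have h2 : Gd S e₁ θ F D c (t - S.l p) i ≤ Gd S e₁ θ F D c (t - S.l p) i := le_rfl
    conv at h2 => lhs; unfold Gd
    rcases (Finset.fold_min_le _).1 h2 with h3 | ⟨k', hk', h3⟩
    · linarith
    · rw [← ee1] at hk'
      obtain ⟨k, hk, hR⟩ := hM.2 k' hk'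
      have h4 := (gdp_core hh hh2 hrho hp h1 h0 hl hc ha hR).2
      rw [← hη] at h4
      obtain ⟨y', hy'⟩ : ∃ y', y' = ds S e₁ θ D c (t - S.l p) i k' := ⟨_, rfl⟩
      rw [← hy'] at h3 h4
      have hy1 : y' ≤ 1 := h3.trans hG1'
      have h5 : (1 + S.h) * (y' + η) ≤ 2 := by nlinarith
      have hZ : 0 < S.rho * S.x t / e₁ := by positivity
      have h6 : nd (p * (θ (t + D) k - θ t j - c / S.x t)) ≤
          p * (2 * e₁ / (S.rho * S.x t)) := by
        have h7 : S.rho * S.x t / e₁ * nd (p * (θ (t + D) k - θ t j - c / S.x t)) ≤ p * 2 :=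
          h4.trans (mul_le_mul_of_nonneg_left h5 hp0.le)
        rw [mul_comm, ← le_div_iff₀ hZ] at h7
        refine h7.trans (le_of_eq ?_)
        field_simp
      have h7 := hex k hk h6
      have h8 := gdp_nd_mul hp h7 hpz
      rw [h8] at h4
      have h9 : ds S e₁ θ D c t j k ≤ (1 + S.h) * (y' + η) := by
        unfold ds
        have h10 : p * (S.rho * S.x t / e₁ * nd (θ (t + D) k - θ t j - c / S.x t)) ≤
            p * ((1 + S.h) * (y' + η)) := by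
          linarith
        exact le_of_mul_le_mul_left h10 hp0
      have h10 : Gd S e₁ θ F D c t j ≤ ds S e₁ θ D c t j k := by
        conv_lhs => unfold Gd
        exact (Finset.fold_min_le _).2 (Or.inr ⟨k, hk, le_rfl⟩)
      have h11 : (1 + S.h) * (y' + η) ≤ y' + e := by nlinarith
      linarith
  rw [abs_le]
  constructor <;> linarith

theorem pf_GDP (hEXC : T_EXC) (hSIZ : T_SIZ) (hCTP : T_CTP) : T_GDP := by
  intro K r₀ e₁ e hK h1 h1' he
  obtain ⟨X₁, hX₁⟩ := hSIZ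
  obtain ⟨X₂, hX₂⟩ := LL_large (2 * (r₀ : ℝ) ^ 2 / e)
  obtain ⟨X₃, hX₃⟩ := LL_large (8 / (e * e₁))
  refine ⟨max (max X₁ X₂) X₃, ?_⟩
  intro S Δ e₀ c D F θ φ hS hSK hX hΔ hΔ2 h0 h0' hF hI hD hc
  have hXa : X₁ ≤ S.X := (le_max_left _ _).trans ((le_max_left _ _).trans hX)
  have hXb : X₂ ≤ S.X := (le_max_right _ _).trans ((le_max_left _ _).trans hX)
  have hXc : 8 / (e * e₁) ≤ S.L := hX₃ S.X ((le_max_right _ _).trans hX)
  obtain ⟨s1, s2, s3, s4, s5, s6, s7, s8, s9, s10, s11, s12, s13⟩ := hX₁ S hS hXa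
  obtain ⟨c1, c2, c3, c4, c5, c6, c7, c8, c9⟩ := hCTP S Δ hS hΔ hΔ2
  have hh := hS.hh
  have hr := hS.hr0
  have hL : 2 * (r₀ : ℝ) ^ 2 / e ≤ S.L := hX₂ S.X hXb
  have hP : 2 * (r₀ : ℝ) ^ 2 / e ≤ S.P := by
    have : S.L + 1 ≤ S.P := Real.add_one_le_exp _
    linarith
  have hP0 := Par.P_pos (S := S)
  have hrx : ∀ t : ℤ, 0 < S.rho * S.x t := fun t => mul_pos hr (Par.x_pos t)
  rcases le_or_gt 1 e with he1 | he1
  · -- a trivial case
    refine le_trans (le_of_eq ?_) (mul_nonneg he.le c3)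
    refine Finset.sum_eq_zero fun p _ => ?_
    have h2 : (cut S Δ).cnt (fun t => t - S.l p ∈ (cut S Δ).I ∧
        ∃ j ∈ F t, ∃ i ∈ F (t - S.l p), RE S e₀ θ φ p t j i ∧
          e < |Gd S e₁ θ F D c (t - S.l p) i - Gd S e₁ θ F D c t j|) = 0 := by
      unfold Par.cnt
      rw [Nat.cast_eq_zero, Finset.card_eq_zero, Finset.eq_empty_iff_forall_notMem]
      intro t ht
      rw [Par.mem_fl] at ht
      obtain ⟨-, -, j, -, i, -, -, hlt⟩ := ht
      have a1 := gdp_nonneg (F := F) (D := D) (c := c) (t := t) (j := j) (θ := θ) hr h1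
      have a2 := gdp_le_one (S := S) (e₁ := e₁) (F := F) (D := D) (c := c) (t := t) (j := j)
        (θ := θ)
      have a3 := gdp_nonneg (F := F) (D := D) (c := c) (t := t - S.l p) (j := i) (θ := θ) hr h1
      have a4 := gdp_le_one (S := S) (e₁ := e₁) (F := F) (D := D) (c := c) (t := t - S.l p)
        (j := i) (θ := θ)
      rcases lt_abs.1 hlt with h | h <;> linarith
    rw [h2, mul_zero]
  -- sizes
  have hrho1 : S.rho ≤ e * e₁ / 8 := by
    have a4 : S.rho * (8 / (e * e₁)) ≤ 1 := hS.rho_le hXc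
    rw [mul_div_assoc', div_le_one (by positivity)] at a4
    linarith
  have hrho3 : S.rho ^ 3 ≤ S.rho := by
    have := pow_le_pow_of_le_one hr.le (by linarith : S.rho ≤ 1) (by norm_num : 1 ≤ 3)
    simpa using this
  have hhr : S.h / (S.rho * e₁) ≤ e / 8 := by
    rw [div_le_iff₀ (by positivity)]
    have a1 : S.h ≤ S.rho * S.rho ^ 3 := by
      have : S.rho * S.rho ^ 3 = S.rho ^ 4 := by ring
      linarith
    have a2 : S.rho * S.rho ^ 3 ≤ S.rho * (e * e₁ / 8) :=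
      mul_le_mul_of_nonneg_left (hrho3.trans hrho1) hr.le
    linarith
  have hhe : S.h ≤ e / 8 := by
    have a1 : S.rho ^ 4 ≤ S.rho := by
      have := pow_le_pow_of_le_one hr.le (by linarith : S.rho ≤ 1) (by norm_num : 1 ≤ 4)
      simpa using this
    have a2 : e * e₁ ≤ e * 1 := mul_le_mul_of_nonneg_left h1' he.le
    linarith
  have hQ1 : ∀ p ∈ S.Q, 1 ≤ p ∧ (p : ℝ) ≤ S.P ^ (2 * S.K) := fun p hp => by
    have := (mem_Pr (by positivity)).1 hp
    exact ⟨this.2.2.one_le, this.2.1⟩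
  have hPK1 : 1 ≤ S.P := by linarith
  have hEX := hEXC (cut S Δ) (range r₀ ×ˢ range r₀)
    (fun t j k => θ (t + D) k - θ t j - c / S.x t) (fun t => 2 * e₁ / (S.rho * S.x t)) c1 (by
      intro t ht
      have hx2 := (s9 t (c6 ht)).1
      refine ⟨by have := hrx t; positivity, ?_⟩
      change 2 * S.P ^ (4 * S.K) * (2 * e₁ / (S.rho * S.x t)) < 1
      rw [mul_div_assoc', div_lt_one (hrx t)]
      refine lt_of_lt_of_le ?_ hx2
      have e1 : S.P ^ (100 * S.K) = S.P ^ (4 * S.K) * S.P ^ (96 * S.K) := by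
        rw [← pow_add]
        congr 1
        omega
      have e2 : 100 ≤ S.P ^ (96 * S.K) := by
        refine s2.trans (le_self_pow₀ hPK1 ?_)
        have := hS.hK
        omega
      have e3 : 0 < S.P ^ (4 * S.K) := by positivity
      rw [e1]
      nlinarith)
  have hcard : ((range r₀ ×ˢ range r₀).card : ℝ) = (r₀ : ℝ) ^ 2 := by
    rw [card_product, card_range]
    push_cast
    ring
  rw [hcard] at hEX
  have hr2 : (r₀ : ℝ) ^ 2 / S.P * (cut S Δ).N ≤ e / 2 * (cut S Δ).N := by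
    refine mul_le_mul_of_nonneg_right ?_ c3
    rw [div_le_iff₀ hP0]
    rw [div_le_iff₀ he] at hP
    linarith
  have hDabs : |(D : ℤ)| ≤ Δ := by
    rw [abs_of_nonneg (by positivity)]
    exact hD
  have hone : ∀ p ∈ S.Q, (cut S Δ).cnt (fun t => t - S.l p ∈ (cut S Δ).I ∧
      ∃ j ∈ F t, ∃ i ∈ F (t - S.l p), RE S e₀ θ φ p t j i ∧
        e < |Gd S e₁ θ F D c (t - S.l p) i - Gd S e₁ θ F D c t j|) ≤
      S.cnt (fun t => t - S.l p ∈ S.I ∧ ¬ Bij (RE S e₀ θ φ p t) (F t) (F (t - S.l p))) +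
      (cut S Δ).cnt (fun t => ∃ k ∈ range r₀ ×ˢ range r₀,
        nd (p * (θ (t + D) k.2 - θ t k.1 - c / S.x t)) ≤ p * (2 * e₁ / (S.rho * S.x t)) ∧
        2 * e₁ / (S.rho * S.x t) < nd (θ (t + D) k.2 - θ t k.1 - c / S.x t)) := by
    intro p hp
    obtain ⟨hp1, hp2⟩ := hQ1 p hp
    have b1 := c9 (fun t => t - S.l p ∈ S.I ∧
      ¬ Bij (RE S e₀ θ φ p t) (F t) (F (t - S.l p))) D hDabs
    refine le_trans (Par.cnt_le_add ?_) (add_le_add_left b1 _)
    rintro t ht ⟨htp, j, hj, i, hi, hR, hlt⟩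
    by_contra hcc
    push Not at hcc
    obtain ⟨hc1, hc2⟩ := hcc
    have b2 : t + (D : ℤ) - S.l p ∈ S.I := by
      have := c7 _ htp D hDabs
      rwa [show t - S.l p + (D : ℤ) = t + D - S.l p by ring] at this
    have hB := hc1 b2
    have hM : Mat (RE S e₀ θ φ p (t + D)) (F (t + D)) (F (t + D - S.l p)) :=
      ⟨fun k hk => (hB.1 k hk).exists, fun k hk => (hB.2 k hk).exists⟩
    have hpz : p * (2 * e₁ / (S.rho * S.x t)) ≤ 1 / 2 := by
      rw [mul_div_assoc', div_le_iff₀ (hrx t)]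
      have hx2 := (s9 t (c6 ht)).1
      have e1 : S.P ^ (100 * S.K) = S.P ^ (2 * S.K) * S.P ^ (98 * S.K) := by
        rw [← pow_add]
        congr 1
        omega
      have e2 : 100 ≤ S.P ^ (98 * S.K) := by
        refine s2.trans (le_self_pow₀ hPK1 ?_)
        have := hS.hK
        omega
      have e3 : 0 < S.P ^ (2 * S.K) := by positivity
      have e4 : (p : ℝ) * (2 * e₁) ≤ S.P ^ (2 * S.K) * 2 := by
        refine mul_le_mul hp2 (by linarith) (by positivity) e3.le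
      have e5 : S.P ^ (2 * S.K) * 100 ≤ S.P ^ (2 * S.K) * S.P ^ (98 * S.K) :=
        mul_le_mul_of_nonneg_left e2 e3.le
      rw [← e1] at e5
      linarith
    have := gdp_edge (F := F) (φ := φ) hh hhe he1.le he hr hp1 h1 h0 h0' hhr (s10 p hp1) hc hR
      hM hpz (fun k hk hz => hc2 (j, k) (mem_product.2 ⟨hF t hj, hF _ hk⟩) hz)
    linarith
  calc ∑ p ∈ S.Q, 1 / (p : ℝ) * (cut S Δ).cnt (fun t => t - S.l p ∈ (cut S Δ).I ∧
        ∃ j ∈ F t, ∃ i ∈ F (t - S.l p), RE S e₀ θ φ p t j i ∧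
          e < |Gd S e₁ θ F D c (t - S.l p) i - Gd S e₁ θ F D c t j|)
      ≤ ∑ p ∈ S.Q, (1 / (p : ℝ) * S.cnt (fun t => t - S.l p ∈ S.I ∧
          ¬ Bij (RE S e₀ θ φ p t) (F t) (F (t - S.l p))) +
        1 / (p : ℝ) * (cut S Δ).cnt (fun t => ∃ k ∈ range r₀ ×ˢ range r₀,
          nd (p * (θ (t + D) k.2 - θ t k.1 - c / S.x t)) ≤ p * (2 * e₁ / (S.rho * S.x t)) ∧
          2 * e₁ / (S.rho * S.x t) < nd (θ (t + D) k.2 - θ t k.1 - c / S.x t))) := by
        refine sum_le_sum fun p hp => ?_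
        rw [← mul_add]
        exact mul_le_mul_of_nonneg_left (hone p hp) (by positivity)
    _ ≤ e / 8 * S.N + (r₀ : ℝ) ^ 2 / S.P * (cut S Δ).N := by
        rw [sum_add_distrib]
        exact add_le_add hI.pr hEX
    _ ≤ e * (cut S Δ).N := by
        have a1 : e / 8 * S.N ≤ e / 8 * (13 / 12 * (cut S Δ).N) :=
          mul_le_mul_of_nonneg_left c5 (by linarith)
        have a2 : 0 ≤ e * (cut S Δ).N := mul_nonneg he.le c3
        linarith

end Pool.Agent.H78.GX.H85.GS3
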