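import Pool.Agent.H78.GX.H78.GS.TF3

/-!
# Theorem (G), section 3a, row FMAS: at a good point one of the twisted sums is not small
-/

set_option autoImplicit false

open Finset Pool.Agent.H6.N4D Pool.Agent.H78.GX.H6.N4D Pool.Agent.H78.GX Pool.Agent.H78.GX.H78.GS

namespace Pool.Agent.H78.GX.H85.GS3

/-- reduction of a fraction modulo one -/
lemma mas_red (b₁ a₁ : ℕ) (hb : 1 ≤ b₁) : ∃ (b a : ℕ) (k : ℤ), 1 ≤ b ∧ b ≤ b₁ ∧ a < b ∧
    Nat.Coprime a b ∧ (a₁ : ℝ) / b₁ = (a : ℝ) / b + k := by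
  have hg : 0 < Nat.gcd a₁ b₁ := Nat.gcd_pos_of_pos_right _ hb
  obtain ⟨g, hgd⟩ : ∃ g, g = Nat.gcd a₁ b₁ := ⟨_, rfl⟩
  have hg0 : 0 < g := by rw [hgd]; exact hg
  have hga : g ∣ a₁ := by rw [hgd]; exact Nat.gcd_dvd_left _ _
  have hgb : g ∣ b₁ := by rw [hgd]; exact Nat.gcd_dvd_right _ _
  have hco : Nat.Coprime (a₁ / g) (b₁ / g) := by
    have := Nat.coprime_div_gcd_div_gcd hg
    rwa [← hgd] at this
  obtain ⟨a', ha'⟩ := hga
  obtain ⟨b, hb'⟩ := hgb
  have e1 : a₁ / g = a' := by rw [ha']; exact Nat.mul_div_cancel_left _ hg0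
  have e2 : b₁ / g = b := by rw [hb']; exact Nat.mul_div_cancel_left _ hg0
  rw [e1, e2] at hco
  have hb0 : 0 < b := by
    rcases Nat.eq_zero_or_pos b with h | h
    · rw [h, mul_zero] at hb'
      omega
    · exact h
  refine ⟨b, a' % b, ((a' / b : ℕ) : ℤ), hb0, ?_, Nat.mod_lt _ hb0, ?_, ?_⟩
  · rw [hb']
    exact Nat.le_mul_of_pos_left b hg0
  · have h1 : Nat.gcd b a' = Nat.gcd (a' % b) b := Nat.gcd_rec b a'
    have h2 : Nat.gcd b a' = 1 := hco.symm
    exact h1.symm.trans h2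
  · have hbr : (0 : ℝ) < b := by exact_mod_cast hb0
    have hgr : (0 : ℝ) < g := by exact_mod_cast hg0
    have h3 : ((a' % b : ℕ) : ℝ) + b * ((a' / b : ℕ) : ℝ) = a' := by
      exact_mod_cast Nat.mod_add_div a' b
    rw [ha', hb', Int.cast_natCast, Nat.cast_mul, Nat.cast_mul,
      mul_div_mul_left _ _ hgr.ne', ← h3]
    field_simp

theorem pf_MAS (hPAR : T_PAR) : T_MAS := by
  classical
  intro S e₁ ν T θ φ F b₀ t hS he₁ he₁' hν hν' ht hSep hF hFr
  obtain ⟨j, hj⟩ := Finset.nonempty_iff_ne_empty.2 hF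
  obtain ⟨b₁, a₁, hb₁, hb₁', hAt⟩ := hFr j hj
  obtain ⟨b, a, k, hb, hbb, hab, hco, hfr⟩ := mas_red b₁ a₁ hb₁
  have hx : 0 < S.x t := Par.x_pos t
  have hr : 0 < S.rho := hS.hr0
  have hrx : 0 < S.rho * S.x t := mul_pos hr hx
  have hj1 : nd (fh S θ T t j - (a : ℝ) / b) ≤ 1 / (4 * (S.rho * S.x t)) := by
    have h1 : nd (fh S θ T t j - (a : ℝ) / b) = nd (fh S θ T t j - (a₁ : ℝ) / b₁) := by
      have e : fh S θ T t j - (a : ℝ) / b = fh S θ T t j - (a₁ : ℝ) / b₁ + (k : ℝ) := by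
        rw [hfr]
        ring
      rw [e, nd_add_int]
    rw [h1]
    refine le_trans hAt ?_
    rw [div_le_div_iff₀ hrx (by positivity)]
    nlinarith [mul_nonneg hν he₁.le, mul_le_mul hν' he₁' he₁.le (by norm_num : (0 : ℝ) ≤ 1)]
  have hfil : (F t).filter (fun j => nd (fh S θ T t j - (a : ℝ) / b) ≤
      1 / (4 * (S.rho * S.x t))) = {j} := by
    ext i
    rw [mem_filter, mem_singleton]
    constructor
    · rintro ⟨hi, hi1⟩
      by_contra hne
      have h1 := hSep t ht i hi j hj hne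
      have h2 : nd (θ t i - θ t j) ≤
          nd (fh S θ T t i - (a : ℝ) / b) + nd (fh S θ T t j - (a : ℝ) / b) := by
        have h3 := nd_tri (fh S θ T t i) ((a : ℝ) / b) (fh S θ T t j)
        rw [nd_sub_comm ((a : ℝ) / b)] at h3
        have e : fh S θ T t i - fh S θ T t j = θ t i - θ t j := by
          unfold fh
          ring
        rwa [e] at h3
      have h4 : 1 / (4 * (S.rho * S.x t)) = 1 / (S.rho * S.x t) / 4 := by
        field_simp
      have h5 : 0 < 1 / (S.rho * S.x t) := by positivity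
      rw [h4] at hi1 hj1
      linarith
    · rintro rfl
      exact ⟨hj, hj1⟩
  have hFA : ‖FA S θ φ F T b a t‖ = 1 := by
    have h0 : FA S θ φ F T b a t =
        ∑ j ∈ (F t).filter (fun j => nd (fh S θ T t j - (a : ℝ) / b) ≤
          1 / (4 * (S.rho * S.x t))),
        ee (φ t j - (a : ℝ) / b * S.n t - T * Real.log (S.n t) + T * (S.h * t)) := by
      unfold FA
      congr!
    rw [h0, hfil, sum_singleton, norm_ee]
  have hP := hPAR b (fun a => FA S θ φ F T b a t) hb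
  have htot : (1 : ℝ) ≤ (Nat.totient b : ℝ) := by
    exact_mod_cast Nat.totient_pos.2 hb
  have hin : (1 : ℝ) ≤ ∑ a ∈ (range b).filter (fun a => Nat.Coprime a b),
      ‖FA S θ φ F T b a t‖ ^ 2 := by
    have h1 : ‖FA S θ φ F T b a t‖ ^ 2 ≤ ∑ a ∈ (range b).filter (fun a => Nat.Coprime a b),
        ‖FA S θ φ F T b a t‖ ^ 2 :=
      single_le_sum (f := fun a => ‖FA S θ φ F T b a t‖ ^ 2) (fun i _ => by positivity)
        (mem_filter.2 ⟨mem_range.2 hab, hco⟩)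
    rw [hFA] at h1
    simpa using h1
  have hb2 : 1 ≤ ∑ χ : DirichletCharacter ℂ b, ‖HC S θ φ F T b χ t‖ ^ 2 := by
    have h2 : ∑ χ : DirichletCharacter ℂ b, ‖HC S θ φ F T b χ t‖ ^ 2 =
        (Nat.totient b : ℝ) * ∑ a ∈ (range b).filter (fun a => Nat.Coprime a b),
          ‖FA S θ φ F T b a t‖ ^ 2 := hP
    rw [h2]
    nlinarith
  refine hb2.trans ?_
  exact single_le_sum (f := fun b => ∑ χ : DirichletCharacter ℂ b, ‖HC S θ φ F T b χ t‖ ^ 2)
    (fun i _ => Finset.sum_nonneg fun χ _ => by positivity)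
    (mem_Icc.2 ⟨hb, hbb.trans hb₁'⟩)

end Pool.Agent.H78.GX.H85.GS3
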